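import Pool.Agent.helper70.LE.SpecN

set_option autoImplicit false

namespace Pool.Agent.LE

open Pool.Agent.helper58.DC Pool.Agent.DI Pool.Agent.GR Pool.Agent.OB Pool.Agent.DR Pool.Agent.FI Pool.Agent.FI3 Pool.Agent.FI4

open Classical in
theorem FXC_lin {β δ : Type} [Fintype β] [Fintype δ] (hcard : Fintype.card β = Fintype.card δ) (U : β → δ → ℂ) (n : ℂ) (hn : n ≠ 0)
    (hU : ∀ u u' : δ, ∑ ψ, U ψ u * (starRingEnd ℂ) (U ψ u') = if u = u' then n else 0) (σ : β → β) (τ : δ ≃ δ)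
    (hστ : ∀ ψ u, U (σ ψ) (τ u) = U ψ u) : {ψ : β | σ ψ = ψ}.ncard = {u : δ | τ u = u}.ncard := by
  have h1 : (Matrix.of fun (u : δ) (ψ : β) => U ψ u) * (Matrix.of fun (ψ : β) (u : δ) => (starRingEnd ℂ) (U ψ u) / n) = 1 := by
    ext u u'
    rw [Matrix.mul_apply, Matrix.one_apply]
    simp only [Matrix.of_apply]
    calc ∑ ψ, U ψ u * ((starRingEnd ℂ) (U ψ u') / n) = (∑ ψ, U ψ u * (starRingEnd ℂ) (U ψ u')) / n := by
          rw [Finset.sum_div]; exact Finset.sum_congr rfl fun ψ _ => by ring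
      _ = _ := by
          rw [hU]
          split_ifs
          · exact div_self hn
          · exact zero_div _
  have h2 : (Matrix.of fun (ψ : β) (u : δ) => (starRingEnd ℂ) (U ψ u) / n) * (Matrix.of fun (u : δ) (ψ : β) => U ψ u) = 1 :=
    (Matrix.mul_eq_one_comm_of_card_eq _ _ _ hcard.symm).1 h1
  have h3 : ∀ ψ ψ' : β, ∑ u, U ψ' u * (starRingEnd ℂ) (U ψ u) = if ψ' = ψ then n else 0 := by
    intro ψ ψ'
    have h4 := congrFun (congrFun h2 ψ) ψ'
    rw [Matrix.mul_apply, Matrix.one_apply] at h4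
    simp only [Matrix.of_apply] at h4
    have h5 : ∑ u, U ψ' u * (starRingEnd ℂ) (U ψ u) = n * ∑ u, (starRingEnd ℂ) (U ψ u) / n * U ψ' u := by
      rw [Finset.mul_sum]
      exact Finset.sum_congr rfl fun u _ => by field_simp
    rw [h5, h4]
    by_cases h : ψ' = ψ
    · rw [if_pos h, if_pos h.symm, mul_one]
    · rw [if_neg h, if_neg (fun h' => h h'.symm), mul_zero]
  have key : n * ({ψ : β | σ ψ = ψ}.ncard : ℂ) = n * ({u : δ | τ u = u}.ncard : ℂ) := by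
    calc n * ({ψ : β | σ ψ = ψ}.ncard : ℂ) = ∑ ψ, (if σ ψ = ψ then n else 0) := by
          rw [← Finset.sum_filter, Finset.sum_const, nsmul_eq_mul, mul_comm, Set.ncard_eq_toFinset_card']
          congr 3
          ext ψ
          simp
      _ = ∑ ψ, ∑ u, U (σ ψ) u * (starRingEnd ℂ) (U ψ u) := Finset.sum_congr rfl fun ψ _ => (h3 ψ (σ ψ)).symm
      _ = ∑ ψ, ∑ u, U (σ ψ) (τ u) * (starRingEnd ℂ) (U ψ (τ u)) :=
          Finset.sum_congr rfl fun ψ _ => (Equiv.sum_comp τ fun u => U (σ ψ) u * (starRingEnd ℂ) (U ψ u)).symm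
      _ = ∑ ψ, ∑ u, U ψ u * (starRingEnd ℂ) (U ψ (τ u)) := Finset.sum_congr rfl fun ψ _ => Finset.sum_congr rfl fun u _ => by rw [hστ]
      _ = ∑ u, ∑ ψ, U ψ u * (starRingEnd ℂ) (U ψ (τ u)) := Finset.sum_comm
      _ = ∑ u, (if u = τ u then n else 0) := Finset.sum_congr rfl fun u _ => hU u (τ u)
      _ = n * ({u : δ | τ u = u}.ncard : ℂ) := by
          rw [← Finset.sum_filter, Finset.sum_const, nsmul_eq_mul, mul_comm, Set.ncard_eq_toFinset_card']
          congr 3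
          ext u
          simp [eq_comm]
  exact_mod_cast mul_left_cancel₀ hn key

theorem FXC_sub {α : Type} (S : Set α) (F : S → Prop) (P : α → Prop) (h : ∀ x : S, F x ↔ P x) :
    {x : α | x ∈ S ∧ P x}.ncard = {x : S | F x}.ncard := by
  rw [← Set.ncard_image_of_injective {x : S | F x} Subtype.val_injective]
  congr 1
  ext y
  constructor
  · rintro ⟨h1, h2⟩
    exact ⟨⟨y, h1⟩, (h _).2 h2, rfl⟩
  · rintro ⟨x, hx, rfl⟩
    exact ⟨x.2, (h x).1 hx⟩

open Classical in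
theorem FXC (hGOA : GOA_stmt) (hDOR4 : DOR4_stmt) (hDDT4 : DDT4_stmt) (hFRA4 : FRA4_stmt) : FXC_stmt := by
  intro p M hS hp2 G _ _ D x θ χ hL Q hQ hRP a ha haQ
  obtain ⟨⟨_, _, hDQ, _, hTL⟩, _, hst⟩ := hFRA4 p M hS G D x θ χ hL Q hQ
  have hTL' := hTL hRP
  have hgood : ∀ u ∈ D, Good p M D (Cz (cz Q) u) θ := by
    intro u hu
    rw [← cz_sup_zpowers]
    refine hGOA p M hS hp2 G D x θ χ hL _ (sup_le hQ ((Subgroup.zpowers_le).2 hu)) ?_
    intro t ht ht2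
    exact hRP t ht (cz_mono le_sup_left ht2)
  have hgQ : Good p M D (cz Q) θ := hGOA p M hS hp2 G D x θ χ hL Q hQ hRP
  have hfin : (Bl M (cz Q) θ).Finite := (IrrOn_fin (cz Q)).subset fun ψ h => h.1
  have : Fintype (Bl M (cz Q) θ) := hfin.fintype
  have : Fintype D := Fintype.ofFinite _
  have hcard : Fintype.card (Bl M (cz Q) θ) = Fintype.card D := by
    have h1 := hgQ.card
    rw [← Nat.card_coe_set_eq, Nat.card_eq_fintype_card, Nat.card_eq_fintype_card] at h1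
    exact h1
  have haD : a ∈ nz D := (mem_TT.1 ha).1
  have hconj : ∀ u ∈ D, a * u * a⁻¹ ∈ D := fun u hu => (Subgroup.mem_normalizer_iff.1 haD u).1 hu
  have hconj' : ∀ u ∈ D, a⁻¹ * u * a ∈ D := fun u hu => by
    have h := (Subgroup.mem_normalizer_iff.1 ((nz D).inv_mem haD) u).1 hu
    rw [inv_inv] at h
    exact h
  -- orthogonality
  have hU : ∀ u u' : D, ∑ ψ : Bl M (cz Q) θ, dd M (Cz (cz Q) (u : G)) θ ψ u * (starRingEnd ℂ) (dd M (Cz (cz Q) (u' : G)) θ ψ u') =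
      if u = u' then (Nat.card D : ℂ) else 0 := by
    intro u u'
    obtain ⟨_, h2, h3⟩ := hDOR4 p M hS G D x θ χ hL Q hQ u u.2 u' u'.2 (hgood u u.2) (hgood u' u'.2)
    have e : ∑ ψ : Bl M (cz Q) θ, dd M (Cz (cz Q) (u : G)) θ ψ u * (starRingEnd ℂ) (dd M (Cz (cz Q) (u' : G)) θ ψ u') =
        ∑ᶠ χ' ∈ Bl M (cz Q) θ, dd M (Cz (cz Q) (u : G)) θ χ' u * (starRingEnd ℂ) (dd M (Cz (cz Q) (u' : G)) θ χ' u') := by
      rw [← finsum_set_coe_eq_finsum_mem, finsum_eq_sum_of_fintype]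
    rw [e]
    by_cases huu : u = u'
    · rw [if_pos huu]
      exact h2 (by rw [huu])
    · rw [if_neg huu]
      refine h3 ?_
      rintro ⟨t, ht, hteq⟩
      rw [hTL', Subgroup.mem_centralizer_iff] at ht
      have h4 := ht u' u'.2
      rw [← h4, mul_inv_cancel_right] at hteq
      exact huu (Subtype.ext hteq.symm)
  have hn : (Nat.card D : ℂ) ≠ 0 := by
    exact_mod_cast Nat.card_pos.ne'
  have hmain := FXC_lin hcard (fun ψ u => dd M (Cz (cz Q) (u : G)) θ ψ u) (Nat.card D : ℂ) hn (fun u u2 => by rw [hU u u2]; by_cases h : u = u2 <;> simp only [h, if_true, if_false])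
    (fun ψ => ⟨cjF a ψ, hst a ha haQ ψ ψ.2⟩)
    ⟨fun u => ⟨a * u * a⁻¹, hconj u u.2⟩, fun u => ⟨a⁻¹ * u * a, hconj' u u.2⟩,
      fun u => Subtype.ext (by change a⁻¹ * (a * (u : G) * a⁻¹) * a = u; group),
      fun u => Subtype.ext (by change a * (a⁻¹ * (u : G) * a) * a⁻¹ = u; group)⟩
    (fun ψ u => hDDT4 p M hS G D x θ χ hL Q hQ a ha haQ u u.2 ψ ψ.2.1)
  rw [FXC_sub (Bl M (cz Q) θ) (fun ψ => (⟨cjF a ψ, hst a ha haQ ψ ψ.2⟩ : Bl M (cz Q) θ) = ψ) (fun ψ => cjF a ψ = ψ) (fun ψ => Subtype.ext_iff)]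
  rw [hmain]
  refine (FXC_sub (D : Set G) (fun u => (⟨a * u * a⁻¹, hconj u u.2⟩ : D) = u) (fun u => a * u = u * a) (fun u => ?_)).symm
  rw [Subtype.ext_iff]
  exact mul_inv_eq_iff_eq_mul

end Pool.Agent.LE
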